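import Pool.Agent.W710.DP.Base
import Pool.Agent.W710.DP.Stm2

/-! GERM: every area preserving diffeomorphism agrees near `0` with a compactly supported one -/

set_option autoImplicit false

namespace Pool.Agent.W817.DP

open Pool.Agent.W710.DP

lemma AP_add (p : ℂ) : AP (Equiv.addRight p) := by
  have h1 : ⇑(Equiv.addRight p) = fun z : ℂ => z + p := rfl
  have h2 : ⇑(Equiv.addRight p).symm = fun z : ℂ => z + -p := rfl
  refine ⟨?_, ?_, fun z => ?_⟩
  · rw [h1]; exact contDiff_id.add contDiff_const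
  · rw [h2]; exact contDiff_id.add contDiff_const
  · rw [h1, fderiv_add_const]
    have : fderiv ℝ (fun z : ℂ => z) z = ContinuousLinearMap.id ℝ ℂ := fderiv_fun_id
    rw [this]
    exact LinearMap.det_id

theorem t_germ (h1 : S_trans) (h2 : S_lin) (h3 : S_tan) : S_germ := by
  intro a ha
  obtain ⟨n1, hn1, hc1, r1, hr1, hg1⟩ := h1 (a 0)
  obtain ⟨n2, hn2, hc2, r2, hr2, hg2⟩ :=
    h2 ((fderiv ℝ (⇑a) 0 : ℂ →L[ℝ] ℂ) : ℂ →ₗ[ℝ] ℂ) (ha.2.2 0)
  have hn20 : n2 0 = 0 := by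
    rw [hg2 0 (by simpa using hr2)]
    simp
  set a' : Equiv.Perm ℂ := n2⁻¹ * (Equiv.addRight (-(a 0))) * a with ha'
  have hAP : AP a' := AP_mul (AP_mul (AP_inv hn2) (AP_add _)) ha
  have hval : ∀ z, n2 (a' z) = a z - a 0 := by
    intro z
    have e0 : a' z = n2.symm (a z + -(a 0)) := rfl
    rw [e0, Equiv.apply_symm_apply, sub_eq_add_neg]
  have ha0 : a' 0 = 0 := by
    apply n2.injective
    rw [hval, hn20, sub_self]
  have hfd2 : fderiv ℝ (⇑n2) 0 = fderiv ℝ (⇑a) 0 := by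
    have : (⇑n2) =ᶠ[nhds (0 : ℂ)] ⇑(fderiv ℝ (⇑a) 0) := by
      filter_upwards [Metric.ball_mem_nhds (0 : ℂ) hr2] with z hz
      exact hg2 z (by simpa using hz)
    rw [this.fderiv_eq, ContinuousLinearMap.fderiv]
  have hfd : fderiv ℝ (⇑a') 0 = ContinuousLinearMap.id ℝ ℂ := by
    have e1 : fderiv ℝ (fun z => n2 (a' z)) 0 =
        (fderiv ℝ n2 (a' 0)).comp (fderiv ℝ a' 0) :=
      fderiv_comp 0 (hn2.differentiable _) (hAP.differentiable _)
    have e2 : (fun z => n2 (a' z)) = fun z => a z - a 0 := funext hval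
    rw [e2, fderiv_sub_const, ha0, hfd2] at e1
    have hdet := ha.2.2 0
    have hinj : Function.Injective (fderiv ℝ (⇑a) 0) := by
      have hu : IsUnit (LinearMap.det ((fderiv ℝ (⇑a) 0 : ℂ →L[ℝ] ℂ) : ℂ →ₗ[ℝ] ℂ)) := by
        rw [hdet]; exact isUnit_one
      have := (LinearMap.isUnit_iff_isUnit_det _).2 hu
      have hb := (Module.End.isUnit_iff _).1 this
      exact hb.injective
    ext1 w
    apply hinj
    have := congrArg (fun L : ℂ →L[ℝ] ℂ => L w) e1
    simpa using this.symm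
  obtain ⟨n3, hn3, hc3, r3, hr3, hg3⟩ := h3 a' hAP ha0 hfd
  refine ⟨n1 * (n2 * n3), AP_mul hn1 (AP_mul hn2 hn3), CS_mul hc1 (CS_mul hc2 hc3), ?_⟩
  obtain ⟨ε, hε, hcl⟩ := Metric.continuousAt_iff.1 (ha.continuous.continuousAt (x := 0)) r1 hr1
  refine ⟨min ε r3, lt_min hε hr3, fun z hz => ?_⟩
  rw [Equiv.Perm.mul_apply, Equiv.Perm.mul_apply,
    hg3 z (lt_of_lt_of_le hz (min_le_right _ _)), hval,
    hg1 _ ?_]
  · show a z - a 0 + a 0 = a z
    ring
  have := hcl (x := z) (by simpa using lt_of_lt_of_le hz (min_le_left _ _))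
  rwa [dist_eq_norm] at this

end Pool.Agent.W817.DP
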