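import Pool.Agent.W710.DP.Base
import Pool.Agent.W710.DP.Stm2

/-! RED: reduction to maps which are the identity near `0` -/

set_option autoImplicit false

namespace Pool.Agent.W817.DP

open Pool.Agent.W710.DP

/-- agree outside a disc -/
def Eqv (f g : Equiv.Perm ℂ) : Prop := ∃ r : ℝ, ∀ z : ℂ, r < ‖z‖ → f z = g z

lemma far {f : Equiv.Perm ℂ} (hf : AP f) (r : ℝ) : ∃ R : ℝ, ∀ z : ℂ, R < ‖z‖ → r < ‖f z‖ := by
  have h1 : IsCompact (f.symm '' Metric.closedBall (0 : ℂ) r) :=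
    (isCompact_closedBall 0 r).image hf.continuous_symm
  obtain ⟨R, hR⟩ := h1.isBounded.exists_norm_le
  refine ⟨R, fun z hz => ?_⟩
  by_contra hcon
  rw [not_lt] at hcon
  have h2 := hR z ⟨f z, by simpa using hcon, by simp⟩
  linarith

lemma Eqv.refl (f : Equiv.Perm ℂ) : Eqv f f := ⟨0, fun _ _ => rfl⟩

lemma Eqv.mul {f g f' g' : Equiv.Perm ℂ} (h : Eqv f g) (h' : Eqv f' g') (hg : AP g') :
    Eqv (f * f') (g * g') := by
  obtain ⟨r, hr⟩ := h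
  obtain ⟨r', hr'⟩ := h'
  obtain ⟨R, hR⟩ := far hg r
  refine ⟨max R r', fun z hz => ?_⟩
  rw [Equiv.Perm.mul_apply, Equiv.Perm.mul_apply, hr' z (lt_of_le_of_lt (le_max_right _ _) hz)]
  exact hr _ (hR z (lt_of_le_of_lt (le_max_left _ _) hz))

lemma Eqv.inv {f g : Equiv.Perm ℂ} (h : Eqv f g) (hg : AP g) : Eqv f⁻¹ g⁻¹ := by
  obtain ⟨r, hr⟩ := h
  obtain ⟨R, hR⟩ := far (AP_inv hg) r
  refine ⟨R, fun z hz => ?_⟩
  rw [Equiv.Perm.inv_eq_iff_eq, hr _ (hR z hz)]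
  simp

lemma AP_cmm {p : Equiv.Perm ℂ × Equiv.Perm ℂ} (h1 : AP p.1) (h2 : AP p.2) : AP (cmm p) :=
  AP_mul (AP_mul (AP_mul h1 h2) (AP_inv h1)) (AP_inv h2)

lemma Eqv.cmm {p q : Equiv.Perm ℂ × Equiv.Perm ℂ} (h1 : Eqv p.1 q.1) (h2 : Eqv p.2 q.2)
    (hq1 : AP q.1) (hq2 : AP q.2) : Eqv (cmm p) (cmm q) :=
  Eqv.mul (Eqv.mul (Eqv.mul h1 h2 hq2) (h1.inv hq1) (AP_inv hq1)) (h2.inv hq2) (AP_inv hq2)

lemma AP_prod (L : List (Equiv.Perm ℂ × Equiv.Perm ℂ)) (h : ∀ p ∈ L, AP p.1 ∧ AP p.2) :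
    AP (L.map cmm).prod := by
  induction L with
  | nil => exact AP_one
  | cons p L ih =>
      rw [List.map_cons, List.prod_cons]
      exact AP_mul (AP_cmm (h p (by simp)).1 (h p (by simp)).2)
        (ih fun q hq => h q (List.mem_cons_of_mem _ hq))

/-- make a map the identity near `0` -/
lemma fix0 (h : S_germ) {a : Equiv.Perm ℂ} (ha : AP a) :
    ∃ a' : Equiv.Perm ℂ, AP a' ∧ Id0 a' ∧ Eqv a' a := by
  obtain ⟨n, hn, hc, r, hr, hg⟩ := h a ha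
  refine ⟨n⁻¹ * a, AP_mul (AP_inv hn) ha, ⟨r, hr, fun z hz => ?_⟩, ?_⟩
  · rw [Equiv.Perm.mul_apply, Equiv.Perm.inv_eq_iff_eq]
    exact (hg z hz).symm
  · obtain ⟨s, hs⟩ := CS_inv hc
    obtain ⟨R, hR⟩ := far ha s
    exact ⟨R, fun z hz => by rw [Equiv.Perm.mul_apply, hs _ (hR z hz)]⟩

lemma fixL (h : S_germ) (L0 : List (Equiv.Perm ℂ × Equiv.Perm ℂ))
    (h0 : ∀ p ∈ L0, AP p.1 ∧ AP p.2) :
    ∃ L : List (Equiv.Perm ℂ × Equiv.Perm ℂ),
      (∀ p ∈ L, AP p.1 ∧ Id0 p.1 ∧ AP p.2 ∧ Id0 p.2) ∧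
      Eqv (L.map Pool.Agent.W710.DP.cmm).prod (L0.map Pool.Agent.W710.DP.cmm).prod := by
  induction L0 with
  | nil => exact ⟨[], by simp, Eqv.refl _⟩
  | cons p L0 ih =>
      obtain ⟨L, hL, hE⟩ := ih fun q hq => h0 q (List.mem_cons_of_mem _ hq)
      obtain ⟨hp1, hp2⟩ := h0 p (by simp)
      obtain ⟨a, ha, ha0, hae⟩ := fix0 h hp1
      obtain ⟨b, hb, hb0, hbe⟩ := fix0 h hp2
      refine ⟨(a, b) :: L, ?_, ?_⟩
      · intro q hq
        rcases List.mem_cons.1 hq with rfl | hq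
        · exact ⟨ha, ha0, hb, hb0⟩
        · exact hL q hq
      · rw [List.map_cons, List.map_cons, List.prod_cons, List.prod_cons]
        exact Eqv.mul (Eqv.cmm hae hbe hp1 hp2) hE
          (AP_prod L0 fun q hq => h0 q (List.mem_cons_of_mem _ hq))

lemma cmm_inv (p : Equiv.Perm ℂ × Equiv.Perm ℂ) : (cmm p)⁻¹ = cmm (p.2, p.1) := by
  unfold cmm
  group

lemma prodL {f : Equiv.Perm ℂ}
    (hf : f ∈ Subgroup.closure {c : Equiv.Perm ℂ | ∃ a b : Equiv.Perm ℂ, AP a ∧ AP b ∧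
      c = a * b * a⁻¹ * b⁻¹}) :
    ∃ L : List (Equiv.Perm ℂ × Equiv.Perm ℂ), (∀ p ∈ L, AP p.1 ∧ AP p.2) ∧
      (L.map cmm).prod = f := by
  induction hf using Subgroup.closure_induction with
  | mem x hx =>
      obtain ⟨a, b, ha, hb, rfl⟩ := hx
      exact ⟨[(a, b)], by simpa using ⟨ha, hb⟩, by simp [cmm]⟩
  | one => exact ⟨[], by simp, rfl⟩
  | mul x y _ _ hx hy =>
      obtain ⟨L, hL, rfl⟩ := hx
      obtain ⟨M, hM, rfl⟩ := hy
      refine ⟨L ++ M, fun p hp => ?_, by simp⟩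
      rcases List.mem_append.1 hp with hp | hp
      · exact hL p hp
      · exact hM p hp
  | inv x _ hx =>
      obtain ⟨L, hL, rfl⟩ := hx
      refine ⟨(L.map fun p => (p.2, p.1)).reverse, fun p hp => ?_, ?_⟩
      · rw [List.mem_reverse, List.mem_map] at hp
        obtain ⟨q, hq, rfl⟩ := hp
        exact ⟨(hL q hq).2, (hL q hq).1⟩
      · rw [List.prod_inv_reverse, List.map_reverse, List.map_map, List.map_map]
        congr 2

theorem t_red (h : S_germ) : S_red := by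
  intro f _ hf
  obtain ⟨L0, h0, rfl⟩ := prodL hf
  obtain ⟨L, hL, hE⟩ := fixL h L0 h0
  exact ⟨L, hL, hE⟩

end Pool.Agent.W817.DP
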